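import Pool.Agent.Y149.AR.Stm
import Pool.Agent.Y773.HG.Gss2

/-!
The finite Fourier transform of the indicator function of an ideal (adaptation of the proof of
helper773 for characters).
-/

set_option autoImplicit false

open NumberField Complex Filter Topology

namespace Pool.Agent.Y824.AR

open Pool.Agent.Y149.AR Pool.Agent.Y773

section

variable {K : Type} [Field K] [NumberField K]

theorem ind_pos {𝔟 : Ideal (𝓞 K)} {x : 𝓞 K} (h : x ∈ 𝔟) : ind 𝔟 x = 1 := by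
  unfold ind
  exact if_pos h

theorem ind_neg {𝔟 : Ideal (𝓞 K)} {x : 𝓞 K} (h : x ∉ 𝔟) : ind 𝔟 x = 0 := by
  unfold ind
  exact if_neg h

theorem ind_perI (𝔟 : Ideal (𝓞 K)) : PerI 𝔟 (ind 𝔟) := by
  intro x y hxy
  by_cases hx : x ∈ 𝔟
  · have hy : y ∈ 𝔟 := by
      have e : y = x - (x - y) := by ring
      rw [e]
      exact Submodule.sub_mem _ hx hxy
    rw [ind_pos hx, ind_pos hy]
  · have hy : y ∉ 𝔟 := fun hy => hx (by
      have e : x = y + (x - y) := by ring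
      rw [e]
      exact Submodule.add_mem _ hy hxy)
    rw [ind_neg hx, ind_neg hy]

theorem SQ_ind (𝔟 : Ideal (𝓞 K)) : SQ 𝔟 (ind 𝔟) = 1 := by
  unfold SQ
  rw [finsum_eq_single _ (0 : 𝓞 K ⧸ 𝔟)]
  · exact ind_pos (by rw [← Ideal.Quotient.eq_zero_iff_mem, mk_out])
  · intro r hr
    refine ind_neg fun h => hr ?_
    rw [← mk_out r]
    exact Ideal.Quotient.eq_zero_iff_mem.2 h

end

/-- **The finite Fourier transform of an indicator function.** -/
theorem ft : S_FT := by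
  intro K _ _ 𝔟 𝔟' m D hm hD hid hm𝔟 _ x
  have h𝔡 : differentIdeal ℤ (𝓞 K) ≠ ⊥ := differentIdeal_ne_bot
  set k : ℕ := m * D with hk
  have hk0 : 0 < k := Nat.mul_pos hm hD
  have hkne : Ideal.span {(k : 𝓞 K)} ≠ ⊥ := Pool.Agent.Y773.G.span_m_ne_bot hk0
  have h𝔟 : 𝔟 ≠ ⊥ := by
    intro h
    rw [h, Ideal.bot_mul, Ideal.mul_bot] at hid
    exact hkne hid.symm
  have hmne : Ideal.span {(m : 𝓞 K)} ≠ ⊥ := Pool.Agent.Y773.G.span_m_ne_bot hm
  have hmle : Ideal.span {(m : 𝓞 K)} ≤ 𝔟 := (Ideal.span_singleton_le_iff_mem _).mpr hm𝔟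
  have hper := ind_perI 𝔟
  have hNb : (Ideal.absNorm 𝔟 : ℂ) ≠ 0 := by
    exact_mod_cast (fun h1 => h𝔟 (Ideal.absNorm_eq_zero_iff.mp h1))
  by_cases hx : x ∈ 𝔟'
  swap
  · -- `x` is not in `𝔟'`
    rw [ind_neg hx, mul_zero]
    by_cases hcond : ∀ r : 𝓞 K, (D : ℤ) ∣ Algebra.trace ℤ (𝓞 K) (x * r)
    swap
    · unfold FT
      rw [if_neg hcond]
    rw [FT_eq_SQ hcond]
    have hexz : ∃ z ∈ 𝔟, ¬ ((k : ℤ) ∣ Algebra.trace ℤ (𝓞 K) (x * z)) := by
      by_contra hcon
      push Not at hcon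
      apply hx
      have h1 : Ideal.span {x} * (𝔟 * differentIdeal ℤ (𝓞 K)) ≤
          𝔟' * (𝔟 * differentIdeal ℤ (𝓞 K)) := by
        rw [hid, ← mul_assoc, Ideal.mul_le]
        intro w hw δ hδ
        obtain ⟨z, hz, rfl⟩ := Ideal.mem_span_singleton_mul.mp hw
        refine Pool.Agent.Y773.G.trace_dvd_conv hk0 (fun o => ?_) hδ
        rw [mul_assoc]
        exact hcon _ (Ideal.mul_mem_right _ _ hz)
      have h2 : 𝔟' ∣ Ideal.span {x} := by
        have h3 := Ideal.dvd_iff_le.mpr h1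
        exact (mul_dvd_mul_iff_right (mul_ne_zero h𝔟 h𝔡)).mp h3
      exact (Ideal.dvd_span_singleton).mp h2
    obtain ⟨z, hz, hz2⟩ := hexz
    have hPer : PerI (Ideal.span {(m : 𝓞 K)}) (fun r => ind 𝔟 r * ee k (x * r)) := by
      intro r r' hrr
      have e1 := hper r r' (hmle hrr)
      have e2 : ee k (x * r) = ee k (x * r') := by
        refine ee_sub_eq hk0 ?_
        obtain ⟨t, ht⟩ := Ideal.mem_span_singleton'.mp hrr
        have e3 : x * r - x * r' = (m : ℤ) • (x * t) := by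
          rw [← mul_sub, ← ht, zsmul_eq_mul]
          push_cast
          ring
        rw [e3, map_smul, hk]
        push_cast
        rw [smul_eq_mul]
        exact mul_dvd_mul_left _ (hcond t)
      simp only [e1, e2]
    have hS := SQ_translate hPer z
    have hne1 : ee k (x * z) ≠ 1 := fun h1 => hz2 ((ee_eq_one_iff hk0 _).mp h1)
    have e4 : SQ (Ideal.span {(m : 𝓞 K)}) (fun r => ind 𝔟 (r + z) * ee k (x * (r + z))) =
        ee k (x * z) * SQ (Ideal.span {(m : 𝓞 K)}) (fun r => ind 𝔟 r * ee k (x * r)) := by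
      rw [← SQ_const_mul hmne]
      refine SQ_congr fun r => ?_
      have e5 : ind 𝔟 (r + z) = ind 𝔟 r := hper _ _ (by rwa [add_sub_cancel_left])
      rw [e5, mul_add, ee_add]
      ring
    have e6 : (1 - ee k (x * z)) *
        SQ (Ideal.span {(m : 𝓞 K)}) (fun r => ind 𝔟 r * ee k (x * r)) = 0 := by
      have := e4.symm.trans hS
      linear_combination -this
    rcases mul_eq_zero.mp e6 with h7 | h7
    · exact absurd (sub_eq_zero.mp h7).symm hne1
    · exact h7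
  -- `x ∈ 𝔟'`
  have htr : ∀ z ∈ 𝔟, (k : ℤ) ∣ Algebra.trace ℤ (𝓞 K) (x * z) := by
    intro z hz
    refine trace_dvd fun δ hδ => ?_
    have e0 : x * z * δ = x * (z * δ) := mul_assoc _ _ _
    rw [← hid, e0]
    exact Ideal.mul_mem_mul hx (Ideal.mul_mem_mul hz hδ)
  have hcond : ∀ r : 𝓞 K, (D : ℤ) ∣ Algebra.trace ℤ (𝓞 K) (x * r) := by
    intro r
    have h1 := htr (m * r) (Ideal.mul_mem_right _ _ hm𝔟)
    have e3 : x * (m * r) = (m : ℤ) • (x * r) := by
      rw [zsmul_eq_mul]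
      push_cast
      ring
    rw [e3, map_smul, hk, smul_eq_mul] at h1
    push_cast at h1
    exact (mul_dvd_mul_iff_left (by exact_mod_cast hm.ne')).mp h1
  rw [FT_eq_SQ hcond, ind_pos hx, mul_one]
  have e1 : SQ (Ideal.span {(m : 𝓞 K)}) (fun r => ind 𝔟 r * ee (m * D) (x * r)) =
      SQ (Ideal.span {(m : 𝓞 K)}) (ind 𝔟) := by
    refine SQ_congr fun r => ?_
    by_cases hr : r ∈ 𝔟
    · rw [← hk, (ee_eq_one_iff hk0 _).2 (htr r hr), mul_one]
    · rw [ind_neg hr, zero_mul]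
  rw [e1]
  have h1 := SQ_mono hmne hmle hper
  rw [absNorm_span_nat, SQ_ind, mul_one] at h1
  push_cast at h1
  rw [eq_div_iff hNb, ← h1]
  ring

end Pool.Agent.Y824.AR
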